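import Pool.Agent.helper24.SK.Spec

/-!
# Project sk (MP_5628fe_nt), row TI1: type I sums, inner sum for fixed `d`
-/

set_option autoImplicit false

namespace Pool.Agent.SK

open Finset ArithmeticFunction MeasureTheory
open Pool.Agent.CH (nit DPb Win Tset ph)
open Pool.Agent.EC (tri vN fN XN TL AdT)
open Pool.Agent.helper85.BVP (tau)
open GD (ks)

/-! ### Characters -/

private theorem TI1_period (q : ℕ) [NeZero q] (g : ZMod q → ℂ) (a : ℕ) :
    ∑ n ∈ Ioc a (a + q), g (n : ZMod q) = ∑ x : ZMod q, g x := by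
  classical
  have hinj : Set.InjOn (fun n : ℕ => (n : ZMod q)) (Ioc a (a + q) : Finset ℕ) := by
    intro m hm n hn hmn
    rw [coe_Ioc, Set.mem_Ioc] at hm hn
    have h1 : m ≡ n [MOD q] := (ZMod.natCast_eq_natCast_iff m n q).1 hmn
    rcases le_total m n with h | h
    · have h2 : q ∣ n - m := (Nat.modEq_iff_dvd' h).1 h1
      by_contra hne
      have h3 := Nat.le_of_dvd (by omega) h2
      omega
    · have h2 : q ∣ m - n := (Nat.modEq_iff_dvd' h).1 h1.symm
      by_contra hne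
      have h3 := Nat.le_of_dvd (by omega) h2
      omega
  have h1 : ∑ x ∈ (Ioc a (a + q)).image (fun n : ℕ => (n : ZMod q)), g x =
      ∑ n ∈ Ioc a (a + q), g (n : ZMod q) := sum_image hinj
  rw [← h1]
  have h2 : (Ioc a (a + q)).image (fun n : ℕ => (n : ZMod q)) = univ := by
    apply Finset.eq_univ_of_card
    rw [card_image_of_injOn hinj, Nat.card_Ioc, ZMod.card]
    omega
  rw [h2]

private theorem TI1_char (q : ℕ) (hq : 1 ≤ q) (χ : DirichletCharacter ℂ q) :
    ∃ ρ : ℂ, ‖ρ‖ ≤ 1 ∧ ∀ a u : ℕ, ‖∑ n ∈ Ioc a u, (χ n - ρ)‖ ≤ 2 * q := by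
  classical
  have : NeZero q := ⟨by omega⟩
  have hq0 : (q : ℂ) ≠ 0 := by
    have : q ≠ 0 := by omega
    exact_mod_cast this
  have hq0' : (0 : ℝ) < q := by exact_mod_cast hq
  obtain ⟨ρ, hρ⟩ : ∃ ρ : ℂ, ρ = (∑ x : ZMod q, χ x) / q := ⟨_, rfl⟩
  have hρ1 : ‖ρ‖ ≤ 1 := by
    rw [hρ, norm_div, Complex.norm_natCast, div_le_one hq0']
    refine (norm_sum_le _ _).trans ?_
    have h1 : ∀ x ∈ (univ : Finset (ZMod q)), ‖χ x‖ ≤ 1 := fun x _ => DirichletCharacter.norm_le_one χ x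
    refine (sum_le_sum h1).trans ?_
    rw [sum_const, card_univ, ZMod.card, nsmul_eq_mul, mul_one]
  refine ⟨ρ, hρ1, ?_⟩
  have h0 : ∑ x : ZMod q, (χ x - ρ) = 0 := by
    rw [sum_sub_distrib, sum_const, card_univ, ZMod.card, nsmul_eq_mul, hρ, mul_div_cancel₀ _ hq0, sub_self]
  have key : ∀ k a : ℕ, ‖∑ n ∈ Ioc a (a + k), (χ n - ρ)‖ ≤ 2 * q := by
    intro k
    induction k using Nat.strong_induction_on with
    | _ k ih =>
      intro a
      rcases Nat.lt_or_ge k q with hk | hk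
      · refine (norm_sum_le _ _).trans ?_
        have h1 : ∀ n ∈ Ioc a (a + k), ‖χ n - ρ‖ ≤ 2 := by
          intro n _
          refine (norm_sub_le _ _).trans ?_
          have := DirichletCharacter.norm_le_one χ (n : ZMod q)
          linarith
        refine (sum_le_sum h1).trans ?_
        rw [sum_const, Nat.card_Ioc, nsmul_eq_mul]
        have h2 : ((a + k - a : ℕ) : ℝ) ≤ q := by
          have : a + k - a ≤ q := by omega
          exact_mod_cast this
        linarith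
      · have h1 : Ioc a (a + k) = Ioc a (a + q) ∪ Ioc (a + q) (a + q + (k - q)) := by
          rw [Finset.Ioc_union_Ioc_eq_Ioc (by omega) (by omega)]
          congr 1
          omega
        have h2 : Disjoint (Ioc a (a + q)) (Ioc (a + q) (a + q + (k - q))) := by
          rw [Finset.disjoint_left]
          intro x hx hx'
          rw [mem_Ioc] at hx hx'
          omega
        rw [h1, sum_union h2, TI1_period q (fun x => χ x - ρ) a, h0, zero_add]
        exact ih (k - q) (by omega) (a + q)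
  intro a u
  rcases Nat.lt_or_ge u a with h | h
  · rw [Ioc_eq_empty (by omega), sum_empty, norm_zero]
    positivity
  · have h1 := key (u - a) a
    rwa [Nat.add_sub_cancel' h] at h1

/-! ### Monotone functions -/

private theorem TI1_clp_nonneg (x : ℝ) : 0 ≤ clp x := le_max_left _ _

private theorem TI1_clp_le (x : ℝ) : clp x ≤ 1 := max_le zero_le_one (min_le_left _ _)

private theorem TI1_clp_mono {x y : ℝ} (h : x ≤ y) : clp x ≤ clp y :=
  max_le_max le_rfl (min_le_min le_rfl h)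

private noncomputable def TI1_G (B N : ℕ) (v : ℝ) (h d : ℕ) (u : ℝ) : ℝ :=
  Real.log u ^ h * g0 B N v (Real.log (d * u))

private noncomputable def TI1_R (v δ s : ℝ) (h d : ℕ) (u : ℝ) : ℝ :=
  Real.log u ^ h * clp ((Real.log (d * u) - v) / δ + s)

private theorem TI1_R_nonneg (v δ s : ℝ) (h d : ℕ) {u : ℝ} (hu : 1 ≤ u) : 0 ≤ TI1_R v δ s h d u :=
  mul_nonneg (pow_nonneg (Real.log_nonneg hu) _) (TI1_clp_nonneg _)

private theorem TI1_R_natnonneg (v δ s : ℝ) (h d n : ℕ) : 0 ≤ TI1_R v δ s h d n :=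
  mul_nonneg (pow_nonneg (Real.log_natCast_nonneg n) _) (TI1_clp_nonneg _)

private theorem TI1_R_mono (v δ s : ℝ) (h d : ℕ) (hδ : 0 < δ) (hd : 1 ≤ d) {x y : ℝ} (hx : 1 ≤ x) (hxy : x ≤ y) :
    TI1_R v δ s h d x ≤ TI1_R v δ s h d y := by
  have hd0 : (0 : ℝ) < d := by exact_mod_cast hd
  have hx0 : 0 < x := by linarith
  have h1 : Real.log x ≤ Real.log y := Real.log_le_log hx0 hxy
  have h2 : Real.log (d * x) ≤ Real.log (d * y) :=
    Real.log_le_log (by positivity) (mul_le_mul_of_nonneg_left hxy hd0.le)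
  have h3 : (Real.log (d * x) - v) / δ + s ≤ (Real.log (d * y) - v) / δ + s := by
    have : (Real.log (d * x) - v) / δ ≤ (Real.log (d * y) - v) / δ := by
      rw [div_le_div_iff_of_pos_right hδ]
      linarith
    linarith
  exact mul_le_mul (pow_le_pow_left₀ (Real.log_nonneg hx) h1 h) (TI1_clp_mono h3) (TI1_clp_nonneg _)
    (pow_nonneg (Real.log_nonneg (by linarith)) _)

private theorem TI1_pow_le {h : ℕ} (hh : h ≤ 1) {x M : ℝ} (hxM : x ≤ M) (hM : 1 ≤ M) : x ^ h ≤ M := by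
  interval_cases h
  · simpa using hM
  · simpa using hxM

private theorem TI1_R_le (v δ s : ℝ) {h : ℕ} (hh : h ≤ 1) (d : ℕ) {u M : ℝ}
    (huM : Real.log u ≤ M) (hM : 1 ≤ M) : TI1_R v δ s h d u ≤ M := by
  have h1 := TI1_pow_le hh huM hM
  calc TI1_R v δ s h d u ≤ M * 1 :=
        mul_le_mul h1 (TI1_clp_le _) (TI1_clp_nonneg _) (by linarith)
    _ = M := mul_one M

private theorem TI1_dec (h1 : TRB_stmt) (B N : ℕ) (v : ℝ) (h d : ℕ) (u : ℝ) (hN : 0 < (N : ℝ))
    (hL : 0 < Real.log N) :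
    TI1_G B N v h d u = TI1_R v (1 / N) 1 h d u - TI1_R v (1 / N) 0 h d u -
      Real.log N ^ B / N * (TI1_R v (1 / Real.log N ^ B) 1 h d u - TI1_R v (1 / Real.log N ^ B) 0 h d u) := by
  have e1 := (h1 v (1 / (N : ℝ)) (by positivity)).2.2.2.2.2.1 (Real.log (d * u))
  have e2 := (h1 v (1 / Real.log N ^ B) (by positivity)).2.2.2.2.2.1 (Real.log (d * u))
  unfold TI1_G TI1_R g0
  rw [e1, e2, add_zero, add_zero]
  ring

/-! ### Counting -/

private theorem TI1_exp {δ : ℝ} (h0 : 0 < δ) (h1 : δ ≤ 1) (v : ℝ) :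
    Real.exp (v + δ) - Real.exp (v - δ) ≤ 4 * δ * Real.exp v := by
  have e1 := Real.abs_exp_sub_one_le (x := δ) (by rw [abs_of_pos h0]; exact h1)
  have e2 := Real.abs_exp_sub_one_le (x := -δ) (by rw [abs_neg, abs_of_pos h0]; exact h1)
  rw [abs_neg, abs_of_pos h0] at e2
  rw [abs_of_pos h0] at e1
  have e3 := (abs_le.1 e1).2
  have e4 := (abs_le.1 e2).1
  have e5 := Real.exp_pos v
  rw [Real.exp_add, sub_eq_add_neg v δ, Real.exp_add]
  nlinarith

private theorem TI1_count (d Y U : ℕ) (hd : 1 ≤ d) (v δ : ℝ) (h0 : 0 < δ) (h1 : δ ≤ 1) :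
    (#((Ioc Y U).filter fun n : ℕ => |Real.log ((d : ℝ) * n) - v| < δ) : ℝ) ≤ 4 * δ * Real.exp v / d + 1 := by
  have hd0 : (0 : ℝ) < d := by exact_mod_cast hd
  have hsub : ((Ioc Y U).filter fun n : ℕ => |Real.log ((d : ℝ) * n) - v| < δ) ⊆
      Ioc ⌊Real.exp (v - δ) / d⌋₊ ⌊Real.exp (v + δ) / d⌋₊ := by
    intro n hn
    rw [mem_filter, mem_Ioc] at hn
    obtain ⟨⟨hn1, hn2⟩, hn3⟩ := hn
    have hn0 : (0 : ℝ) < n := by
      have : 0 < n := by omega
      exact_mod_cast this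
    have hdn : 0 < (d : ℝ) * n := by positivity
    rw [abs_lt] at hn3
    rw [mem_Ioc]
    constructor
    · rw [Nat.floor_lt (by positivity), div_lt_iff₀ hd0, mul_comm]
      have : v - δ < Real.log ((d : ℝ) * n) := by linarith [hn3.1]
      exact (Real.lt_log_iff_exp_lt hdn).1 this
    · apply Nat.le_floor
      rw [le_div_iff₀ hd0, mul_comm]
      have : Real.log ((d : ℝ) * n) < v + δ := by linarith [hn3.2]
      exact ((Real.log_lt_iff_lt_exp hdn).1 this).le
  have hcard := card_le_card hsub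
  rw [Nat.card_Ioc] at hcard
  have h2 : (#((Ioc Y U).filter fun n : ℕ => |Real.log ((d : ℝ) * n) - v| < δ) : ℝ) ≤
      ((⌊Real.exp (v + δ) / d⌋₊ - ⌊Real.exp (v - δ) / d⌋₊ : ℕ) : ℝ) := by exact_mod_cast hcard
  have hle : ⌊Real.exp (v - δ) / d⌋₊ ≤ ⌊Real.exp (v + δ) / d⌋₊ := by
    apply Nat.floor_le_floor
    rw [div_le_div_iff_of_pos_right hd0]
    exact Real.exp_le_exp.2 (by linarith)
  rw [Nat.cast_sub hle] at h2
  have h3 : (⌊Real.exp (v + δ) / d⌋₊ : ℝ) ≤ Real.exp (v + δ) / d := Nat.floor_le (by positivity)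
  have h4 : Real.exp (v - δ) / d < (⌊Real.exp (v - δ) / d⌋₊ : ℝ) + 1 := Nat.lt_floor_add_one _
  have h5 := TI1_exp h0 h1 v
  have h6 : Real.exp (v + δ) / d - Real.exp (v - δ) / d ≤ 4 * δ * Real.exp v / d := by
    rw [← sub_div, div_le_div_iff_of_pos_right hd0]
    exact h5
  linarith

private theorem TI1_trsum (h1 : TRB_stmt) (d Y U : ℕ) (hd : 1 ≤ d) (v δ : ℝ) (h0 : 0 < δ) (hδ : δ ≤ 1) :
    ∑ n ∈ Ioc Y U, tr0 v δ (Real.log ((d : ℝ) * n)) ≤ 4 * δ * Real.exp v / d + 1 := by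
  refine le_trans ?_ (TI1_count d Y U hd v δ h0 hδ)
  obtain ⟨ht1, ht2, -⟩ := h1 v δ h0
  rw [card_filter]
  push_cast
  refine sum_le_sum fun n _ => ?_
  split_ifs with hc
  · exact (ht1 _).2
  · rw [ht2 _ (not_lt.1 hc)]

/-! ### Sum and integral -/

private theorem TI1_sumint (f : ℝ → ℝ) (Y U : ℕ) (hY : 1 ≤ Y) (hYU : Y ≤ U) (M : ℝ)
    (hf : ∀ x y : ℝ, 1 ≤ x → x ≤ y → f x ≤ f y) (h0 : ∀ x : ℝ, 1 ≤ x → 0 ≤ f x) (hM : f U ≤ M) :
    |∑ n ∈ Ioc Y U, f n - ∫ x in (Y : ℝ)..U, f x| ≤ M := by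
  have hY' : (1 : ℝ) ≤ Y := by exact_mod_cast hY
  have hmono : MonotoneOn f (Set.Icc (Y : ℝ) U) := by
    intro x hx y _ hxy
    exact hf x y (hY'.trans hx.1) hxy
  have h1 := MonotoneOn.integral_le_sum_Ico hYU hmono
  have h2 := MonotoneOn.sum_le_integral_Ico hYU hmono
  have e1 : ∑ n ∈ Ioc Y U, f n = ∑ i ∈ Ico Y U, f ((i + 1 : ℕ) : ℝ) := by
    rw [Finset.sum_Ico_add' (fun i : ℕ => f (i : ℝ)) Y U 1]
    apply Finset.sum_congr _ fun _ _ => rfl
    ext n
    rw [mem_Ioc, mem_Ico]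
    omega
  have e2 : ∀ V : ℕ, Y ≤ V → ∑ i ∈ Ico Y V, f ((i + 1 : ℕ) : ℝ) = ∑ i ∈ Ico Y V, f (i : ℝ) + f V - f Y := by
    intro V hV
    induction V, hV using Nat.le_induction with
    | base => simp
    | succ V hV ih =>
      rw [Finset.sum_Ico_succ_top hV, Finset.sum_Ico_succ_top hV, ih]
      ring
  have e3 := e2 U hYU
  have h3 := h0 Y hY'
  rw [e1, abs_le]
  constructor
  · have h4 : 0 ≤ M := (h0 U (hY'.trans (by exact_mod_cast hYU))).trans hM
    linarith
  · linarith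

private theorem TI1_phi {h : ℕ} (hh : h ≤ 1) (v l w : ℝ) (hw : |w - v| ≤ 1) :
    |(w - l) ^ h * Real.exp w - (v - l) ^ h * Real.exp v| ≤ 3 * Real.exp v * (1 + |v - l|) * |w - v| := by
  have h0 := Real.exp_pos v
  have hew : Real.exp w = Real.exp v * Real.exp (w - v) := by
    rw [← Real.exp_add]
    congr 1
    ring
  have h1 : |Real.exp w - Real.exp v| ≤ 2 * Real.exp v * |w - v| := by
    have e1 := Real.abs_exp_sub_one_le hw
    have e2 : Real.exp w - Real.exp v = Real.exp v * (Real.exp (w - v) - 1) := by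
      rw [hew]
      ring
    rw [e2, abs_mul, abs_of_pos h0]
    nlinarith
  have h2 : Real.exp w ≤ 3 * Real.exp v := by
    have e1 : Real.exp (w - v) ≤ 3 := by
      have e2 : Real.exp (w - v) ≤ Real.exp 1 := Real.exp_le_exp.2 ((le_abs_self _).trans hw)
      have e3 := Real.exp_one_lt_d9
      linarith
    rw [hew]
    nlinarith
  have h3 := abs_nonneg (w - v)
  have h4 := abs_nonneg (v - l)
  interval_cases h
  · rw [pow_zero, pow_zero, one_mul, one_mul]
    refine h1.trans ?_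
    have h5 : 0 ≤ Real.exp v * |w - v| := by positivity
    have h6 : 0 ≤ Real.exp v * |w - v| * |v - l| := by positivity
    nlinarith
  · have e1 : (w - l) ^ 1 * Real.exp w - (v - l) ^ 1 * Real.exp v =
        (w - v) * Real.exp w + (v - l) * (Real.exp w - Real.exp v) := by ring
    rw [e1]
    refine (abs_add_le _ _).trans ?_
    rw [abs_mul, abs_mul, abs_of_pos (Real.exp_pos w)]
    have h5 : |w - v| * Real.exp w ≤ |w - v| * (3 * Real.exp v) := mul_le_mul_of_nonneg_left h2 h3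
    have h6 : |v - l| * |Real.exp w - Real.exp v| ≤ |v - l| * (2 * Real.exp v * |w - v|) :=
      mul_le_mul_of_nonneg_left h1 h4
    have h7 : 0 ≤ Real.exp v * |w - v| * |v - l| := by positivity
    nlinarith

private theorem TI1_int (g : ℝ → ℝ) (v δ M E : ℝ) (h d Y U : ℕ) (hd : 1 ≤ d) (hY : 1 ≤ Y) (hYU : Y ≤ U)
    (hδ : δ ≤ 1) (hcont : Continuous g) (hint : Integrable g) (hzero : ∫ x, g x = 0)
    (hsupp : ∀ x, δ ≤ |x - v| → g x = 0) (hi : Integrable fun x => |g x| * |x - v|)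
    (hE : ∫ x, |g x| * |x - v| ≤ E) (hdY : Real.log ((d : ℝ) * Y) ≤ v - δ) (hdU : v + δ ≤ Real.log ((d : ℝ) * U))
    (hM0 : 0 ≤ M)
    (hM : ∀ w, |w - v| ≤ 1 → |(w - Real.log d) ^ h * Real.exp w - (v - Real.log d) ^ h * Real.exp v| ≤ M * |w - v|) :
    |∫ u in (Y : ℝ)..U, Real.log u ^ h * g (Real.log ((d : ℝ) * u))| ≤ M * E / d := by
  have hd0 : (0 : ℝ) < d := by exact_mod_cast hd
  have hY0 : (0 : ℝ) < Y := by exact_mod_cast hY
  have hYU' : (Y : ℝ) ≤ U := by exact_mod_cast hYU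
  obtain ⟨H, hH⟩ : ∃ H : ℝ → ℝ, H = fun w => (w - Real.log d) ^ h * g w * Real.exp w / d := ⟨_, rfl⟩
  have hHc : Continuous H := by
    rw [hH]
    fun_prop
  have s1 : ∫ u in (Y : ℝ)..U, Real.log u ^ h * g (Real.log ((d : ℝ) * u)) =
      ∫ u in (Y : ℝ)..U, (H ∘ fun u => Real.log ((d : ℝ) * u)) u * (1 / u) := by
    apply intervalIntegral.integral_congr
    intro u hu
    rw [Set.uIcc_of_le hYU'] at hu
    have hu0 : 0 < u := hY0.trans_le hu.1
    show Real.log u ^ h * g (Real.log ((d : ℝ) * u)) = H (Real.log ((d : ℝ) * u)) * (1 / u)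
    rw [hH]
    simp only []
    rw [Real.exp_log (by positivity), Real.log_mul hd0.ne' hu0.ne', add_sub_cancel_left]
    field_simp
  have s2 : ∫ u in (Y : ℝ)..U, (H ∘ fun u => Real.log ((d : ℝ) * u)) u * (1 / u) =
      ∫ w in Real.log ((d : ℝ) * Y)..Real.log ((d : ℝ) * U), H w := by
    apply intervalIntegral.integral_comp_mul_deriv (f := fun u => Real.log ((d : ℝ) * u)) (f' := fun u => 1 / u)
    · intro u hu
      rw [Set.uIcc_of_le hYU'] at hu
      have hu0 : 0 < u := hY0.trans_le hu.1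
      have h1 : HasDerivAt (fun u : ℝ => (d : ℝ) * u) ((d : ℝ) * 1) u := (hasDerivAt_id u).const_mul _
      have h2 := h1.log (by positivity)
      have h3 : (d : ℝ) * 1 / ((d : ℝ) * u) = 1 / u := by field_simp
      rw [h3] at h2
      exact h2
    · intro u hu
      rw [Set.uIcc_of_le hYU'] at hu
      have hu0 : 0 < u := hY0.trans_le hu.1
      exact (continuousAt_const.div continuousAt_id hu0.ne').continuousWithinAt
    · exact hHc
  have s3 : ∫ w in Real.log ((d : ℝ) * Y)..Real.log ((d : ℝ) * U), H w = ∫ w, H w := by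
    apply intervalIntegral.integral_eq_integral_of_support_subset
    intro w hw
    rw [Function.mem_support] at hw
    have h1 : g w ≠ 0 := by
      intro hg
      apply hw
      rw [hH]
      simp [hg]
    have h2 : |w - v| < δ := by
      by_contra hc
      exact h1 (hsupp w (not_lt.1 hc))
    rw [abs_lt] at h2
    rw [Set.mem_Ioc]
    constructor <;> linarith [h2.1, h2.2]
  obtain ⟨D, hD⟩ : ∃ D : ℝ → ℝ, D = fun w => g w * ((w - Real.log d) ^ h * Real.exp w -
    (v - Real.log d) ^ h * Real.exp v) := ⟨_, rfl⟩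
  have hDc : Continuous D := by
    rw [hD]
    fun_prop
  have hDb : ∀ w, ‖D w‖ ≤ M * (|g w| * |w - v|) := by
    intro w
    rw [hD]
    simp only []
    rw [Real.norm_eq_abs, abs_mul]
    by_cases hw : |w - v| ≤ 1
    · have := mul_le_mul_of_nonneg_left (hM w hw) (abs_nonneg (g w))
      linarith
    · have h1 : g w = 0 := hsupp w (by linarith [not_le.1 hw])
      rw [h1]
      simp
  have hDi : Integrable D := (hi.const_mul M).mono' hDc.aestronglyMeasurable (Filter.Eventually.of_forall hDb)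
  have s4 : ∫ w, H w = (∫ w, D w) / d := by
    have e1 : H = fun w => (D w + (v - Real.log d) ^ h * Real.exp v * g w) / d := by
      rw [hH, hD]
      funext w
      congr 1
      ring
    rw [e1, integral_div, integral_add hDi (hint.const_mul _), integral_const_mul, hzero, mul_zero, add_zero]
  rw [s1, s2, s3, s4, abs_div, abs_of_pos hd0, div_le_div_iff_of_pos_right hd0]
  have s5 : ‖∫ w, D w‖ ≤ ∫ w, M * (|g w| * |w - v|) :=
    norm_integral_le_of_norm_le (hi.const_mul M) (Filter.Eventually.of_forall hDb)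
  rw [integral_const_mul] at s5
  rw [Real.norm_eq_abs] at s5
  exact s5.trans (mul_le_mul_of_nonneg_left hE hM0)

private theorem TI1_ev (B : ℕ) : ∃ N₀ : ℕ, ∀ N : ℕ, N₀ ≤ N → 3 ≤ Real.log N ∧ Real.log N ^ B ≤ N ∧ 1 ≤ N := by
  have h1 := (Real.isLittleO_pow_log_id_atTop (n := B)).bound (show (0 : ℝ) < 1 by norm_num)
  have h2 := Filter.eventually_ge_atTop (Real.exp 3)
  obtain ⟨x₀, hx₀⟩ := Filter.eventually_atTop.1 (h1.and h2)
  refine ⟨⌈x₀⌉₊, fun N hN => ?_⟩
  have hNx : x₀ ≤ N := (Nat.le_ceil _).trans (by exact_mod_cast hN)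
  obtain ⟨a1, a2⟩ := hx₀ N hNx
  have hN0 : (0 : ℝ) < N := (Real.exp_pos 3).trans_le a2
  have hL : 3 ≤ Real.log N := by rw [Real.le_log_iff_exp_le hN0]; exact a2
  refine ⟨hL, ?_, ?_⟩
  · rw [one_mul, Real.norm_eq_abs, abs_of_nonneg (by positivity)] at a1
    simpa [abs_of_pos hN0] using a1
  · have : 0 < N := by exact_mod_cast hN0
    omega

private theorem TI1_eq (B N : ℕ) (v : ℝ) (q : ℕ) (χ : DirichletCharacter ℂ q) (h d n : ℕ) :
    χ n * (Real.log n : ℂ) ^ h * gj B N v (d * n) = χ n * ((TI1_G B N v h d n : ℝ) : ℂ) := by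
  unfold TI1_G gj
  push_cast
  ring

theorem TI1 (h1 : TRB_stmt) (h2 : G0B_stmt) (h3 : ABL_stmt) : TI1_stmt := by
  refine ⟨120, by norm_num, fun B => ?_⟩
  obtain ⟨N₁, hN₁⟩ := h2 B
  obtain ⟨N₂, hN₂⟩ := TI1_ev B
  refine ⟨max N₁ N₂, fun N hN v hv q hq χ h d Y hh hd hY => ?_⟩
  obtain ⟨-, hg0, hgc, hgi, hgz, -, hgi1, hgE⟩ := hN₁ N ((le_max_left _ _).trans hN) v
  obtain ⟨hL3, hLB, hN1⟩ := hN₂ N ((le_max_right _ _).trans hN)
  have hN0 : (0 : ℝ) < N := by exact_mod_cast hN1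
  have hN1' : (1 : ℝ) ≤ N := by exact_mod_cast hN1
  have hd0 : (0 : ℝ) < d := by exact_mod_cast hd
  have hL0 : 0 < Real.log N := by linarith
  have hLB1 : 1 ≤ Real.log N ^ B := one_le_pow₀ (by linarith)
  have hLB0 : 0 < Real.log N ^ B := by linarith
  have hδ2 : 1 / Real.log N ^ B ≤ 1 := by
    rw [div_le_one hLB0]
    exact hLB1
  have hδ1 : 1 / (N : ℝ) ≤ 1 := by
    rw [div_le_one hN0]
    exact hN1'
  have hκ0 : 0 ≤ Real.log N ^ B / N := by positivity
  have hκ1 : Real.log N ^ B / N ≤ 1 := by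
    rw [div_le_one hN0]
    exact hLB
  rw [abs_le] at hv
  have hlog2 := Real.log_two_lt_d9
  have hlog2' := Real.log_two_gt_d9
  have hexpN : Real.exp (3 * Real.log N) = (N : ℝ) ^ 3 := by
    have : (3 : ℝ) * Real.log N = ((3 : ℕ) : ℝ) * Real.log N := by norm_num
    rw [this, Real.exp_nat_mul, Real.exp_log hN0]
  have hexpv : Real.exp v ≤ 3 * (N : ℝ) ^ 3 := by
    have e1 : Real.exp v ≤ Real.exp (1 + 3 * Real.log N) := Real.exp_le_exp.2 (by linarith [hv.2])
    rw [Real.exp_add, hexpN] at e1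
    have e2 := Real.exp_one_lt_d9
    have e3 : (0 : ℝ) < (N : ℝ) ^ 3 := by positivity
    nlinarith
  obtain ⟨U, hU⟩ : ∃ U : ℕ, U = 64 * N ^ 3 / d := ⟨_, rfl⟩
  have hUle : U ≤ 64 * N ^ 3 := by
    rw [hU]
    exact Nat.div_le_self _ _
  have hlogn : ∀ n : ℕ, n ≤ U → Real.log n ≤ 5 * Real.log N := by
    intro n hn
    rcases Nat.eq_zero_or_pos n with h0 | h0
    · rw [h0]
      simp only [Nat.cast_zero, Real.log_zero]
      linarith
    · have h0' : (0 : ℝ) < n := by exact_mod_cast h0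
      have e1 : (n : ℝ) ≤ 2 ^ 6 * (N : ℝ) ^ 3 := by
        have : n ≤ 64 * N ^ 3 := hn.trans hUle
        have : (n : ℝ) ≤ 64 * (N : ℝ) ^ 3 := by exact_mod_cast this
        linarith
      have e2 := Real.log_le_log h0' e1
      rw [Real.log_mul (by positivity) (by positivity), Real.log_pow, Real.log_pow] at e2
      push_cast at e2
      linarith
  have hsum : ∑ n ∈ Ioc Y U, χ n * (Real.log n : ℂ) ^ h * gj B N v (d * n) =
      ∑ n ∈ Ioc Y U, χ n * ((TI1_G B N v h d n : ℝ) : ℂ) :=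
    sum_congr rfl fun n _ => TI1_eq B N v q χ h d n
  rw [← hU, hsum]
  refine ⟨?_, ?_, ?_⟩
  · -- support
    intro hdY
    apply sum_eq_zero
    intro n hn
    rw [mem_Ioc] at hn
    have hz : TI1_G B N v h d n = 0 := by
      unfold TI1_G
      have e1 : 8 * N ^ 3 ≤ d * n := hdY.trans (Nat.mul_le_mul_left d hn.1.le)
      have e2 : 2 ^ 3 * (N : ℝ) ^ 3 ≤ (d : ℝ) * n := by
        have : ((8 * N ^ 3 : ℕ) : ℝ) ≤ ((d * n : ℕ) : ℝ) := by exact_mod_cast e1
        push_cast at this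
        linarith
      have e3 := Real.log_le_log (by positivity) e2
      rw [Real.log_mul (by positivity) (by positivity), Real.log_pow, Real.log_pow] at e3
      push_cast at e3
      rw [hg0, mul_zero]
      have e4 : 1 ≤ Real.log ((d : ℝ) * n) - v := by linarith [hv.2]
      exact hδ2.trans (e4.trans (le_abs_self _))
    rw [hz]
    simp
  · -- trivial bound
    have b1 : ∀ n ∈ Ioc Y U, ‖χ n * ((TI1_G B N v h d n : ℝ) : ℂ)‖ ≤ 5 * Real.log N *
        (tr0 v (1 / (N : ℝ)) (Real.log ((d : ℝ) * n)) +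
          Real.log N ^ B / N * tr0 v (1 / Real.log N ^ B) (Real.log ((d : ℝ) * n))) := by
      intro n hn
      rw [mem_Ioc] at hn
      have c1 := DirichletCharacter.norm_le_one χ (n : ZMod q)
      have c2 := (h1 v (1 / (N : ℝ)) (by positivity)).1 (Real.log ((d : ℝ) * n))
      have c3 := (h1 v (1 / Real.log N ^ B) (by positivity)).1 (Real.log ((d : ℝ) * n))
      have c4 : |g0 B N v (Real.log ((d : ℝ) * n))| ≤ tr0 v (1 / (N : ℝ)) (Real.log ((d : ℝ) * n)) +
          Real.log N ^ B / N * tr0 v (1 / Real.log N ^ B) (Real.log ((d : ℝ) * n)) := by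
        unfold g0
        have c5 : 0 ≤ Real.log N ^ B / N * tr0 v (1 / Real.log N ^ B) (Real.log ((d : ℝ) * n)) :=
          mul_nonneg hκ0 c3.1
        rw [abs_le]
        constructor <;> linarith [c2.1]
      rw [norm_mul, Complex.norm_real, Real.norm_eq_abs]
      unfold TI1_G
      rw [abs_mul, abs_of_nonneg (pow_nonneg (Real.log_natCast_nonneg n) h)]
      have c6 : Real.log n ^ h ≤ 5 * Real.log N := TI1_pow_le hh (hlogn n hn.2) (by linarith)
      have c7 : Real.log n ^ h * |g0 B N v (Real.log ((d : ℝ) * n))| ≤ 5 * Real.log N *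
        (tr0 v (1 / (N : ℝ)) (Real.log ((d : ℝ) * n)) +
          Real.log N ^ B / N * tr0 v (1 / Real.log N ^ B) (Real.log ((d : ℝ) * n))) :=
        mul_le_mul c6 c4 (abs_nonneg _) (by linarith)
      have c8 : 0 ≤ Real.log n ^ h * |g0 B N v (Real.log ((d : ℝ) * n))| :=
        mul_nonneg (pow_nonneg (Real.log_natCast_nonneg n) h) (abs_nonneg _)
      calc ‖χ n‖ * (Real.log n ^ h * |g0 B N v (Real.log ((d : ℝ) * n))|)
          ≤ 1 * (Real.log n ^ h * |g0 B N v (Real.log ((d : ℝ) * n))|) := mul_le_mul_of_nonneg_right c1 c8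
        _ ≤ _ := by rw [one_mul]; exact c7
    refine (norm_sum_le _ _).trans ((sum_le_sum b1).trans ?_)
    rw [← mul_sum, sum_add_distrib, ← mul_sum]
    have t1 := TI1_trsum h1 d Y U hd v (1 / (N : ℝ)) (by positivity) hδ1
    have t2 := TI1_trsum h1 d Y U hd v (1 / Real.log N ^ B) (by positivity) hδ2
    have t3 : 4 * (1 / (N : ℝ)) * Real.exp v / d ≤ 12 * ((N : ℝ) ^ 2 / d) := by
      rw [← mul_div_assoc (12 : ℝ) ((N : ℝ) ^ 2) (d : ℝ), div_le_div_iff_of_pos_right hd0]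
      have e1 : 4 * (1 / (N : ℝ)) * Real.exp v ≤ 4 * (1 / (N : ℝ)) * (3 * (N : ℝ) ^ 3) :=
        mul_le_mul_of_nonneg_left hexpv (by positivity)
      have e2 : 4 * (1 / (N : ℝ)) * (3 * (N : ℝ) ^ 3) = 12 * (N : ℝ) ^ 2 := by
        field_simp
        ring
      linarith
    have t4 : Real.log N ^ B / N * (4 * (1 / Real.log N ^ B) * Real.exp v / d + 1) ≤
        12 * ((N : ℝ) ^ 2 / d) + 1 := by
      have e1 : Real.log N ^ B / N * (4 * (1 / Real.log N ^ B) * Real.exp v / d + 1) =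
          4 * (1 / (N : ℝ)) * Real.exp v / d + Real.log N ^ B / N := by
        field_simp
      rw [e1]
      linarith
    have t5 : Real.log N ^ B / N * ∑ n ∈ Ioc Y U, tr0 v (1 / Real.log N ^ B) (Real.log ((d : ℝ) * n)) ≤
        12 * ((N : ℝ) ^ 2 / d) + 1 := (mul_le_mul_of_nonneg_left t2 hκ0).trans t4
    have t6 : 0 ≤ (N : ℝ) ^ 2 / d := by positivity
    calc 5 * Real.log N * (∑ n ∈ Ioc Y U, tr0 v (1 / (N : ℝ)) (Real.log ((d : ℝ) * n)) +
          Real.log N ^ B / N * ∑ n ∈ Ioc Y U, tr0 v (1 / Real.log N ^ B) (Real.log ((d : ℝ) * n)))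
        ≤ 5 * Real.log N * (24 * ((N : ℝ) ^ 2 / d) + 2) :=
          mul_le_mul_of_nonneg_left (by linarith) (by linarith)
      _ ≤ 120 * Real.log N * ((N : ℝ) ^ 2 / d + 1) := by nlinarith
  · -- the main bound
    intro hdY hd32
    obtain ⟨ρ, hρ1, hρ⟩ := TI1_char q hq χ
    have hUd : 32 * (N : ℝ) ^ 3 ≤ (d : ℝ) * U := by
      have e1 : 64 * N ^ 3 < d * (64 * N ^ 3 / d + 1) := Nat.lt_mul_div_succ _ (by omega)
      rw [← hU] at e1
      have e2 : 32 * N ^ 3 ≤ d * U := by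
        have e3 : d * (U + 1) = d * U + d := by ring
        omega
      exact_mod_cast e2
    have hY0 : (0 : ℝ) < Y := by exact_mod_cast hY
    have hY1 : (1 : ℝ) ≤ Y := by exact_mod_cast hY
    have hlogdY : Real.log ((d : ℝ) * Y) ≤ v - 1 / Real.log N ^ B := by
      have := Real.log_le_log (by positivity) hdY
      rwa [Real.log_exp] at this
    have hN3 : (0 : ℝ) < (N : ℝ) ^ 3 := by positivity
    have hdU0 : (0 : ℝ) < (d : ℝ) * U := by linarith
    have hlogdU : v + 1 / Real.log N ^ B ≤ Real.log ((d : ℝ) * U) := by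
      have e1 : v + 1 ≤ Real.log ((d : ℝ) * U) := by
        rw [Real.le_log_iff_exp_le hdU0, Real.exp_add]
        have e2 := Real.exp_one_lt_d9
        have e3 := Real.exp_pos v
        nlinarith
      linarith
    have hYU : Y ≤ U := by
      have e1 : Real.log ((d : ℝ) * Y) ≤ Real.log ((d : ℝ) * U) := by
        have : 0 < 1 / Real.log N ^ B := by positivity
        linarith
      have e2 : (d : ℝ) * Y ≤ (d : ℝ) * U := (Real.log_le_log_iff (by positivity) hdU0).1 e1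
      have e3 : (Y : ℝ) ≤ U := le_of_mul_le_mul_left e2 hd0
      exact_mod_cast e3
    have hU1 : (1 : ℝ) ≤ U := hY1.trans (by exact_mod_cast hYU)
    -- one monotone function
    have hone : ∀ δ s : ℝ, 0 < δ →
        ‖∑ n ∈ Ioc Y U, (χ n - ρ) * ((TI1_R v δ s h d n : ℝ) : ℂ)‖ ≤ 20 * q * Real.log N ∧
        |∑ n ∈ Ioc Y U, TI1_R v δ s h d n - ∫ x in (Y : ℝ)..U, TI1_R v δ s h d x| ≤ 5 * Real.log N ∧
        IntervalIntegrable (fun x => TI1_R v δ s h d x) volume (Y : ℝ) U := by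
      intro δ s hδ
      have hRU : TI1_R v δ s h d U ≤ 5 * Real.log N :=
        TI1_R_le v δ s hh d (hlogn U le_rfl) (by linarith)
      refine ⟨?_, ?_, ?_⟩
      · have e1 := h3 (fun n => χ n - ρ) (fun n => TI1_R v δ s h d n) Y U (2 * q)
          (fun n => TI1_R_natnonneg v δ s h d n)
          (fun m n hm hmn _ => TI1_R_mono v δ s h d hδ hd (by
            have : 1 ≤ m := by omega
            exact_mod_cast this) (by exact_mod_cast hmn))
          (fun u _ => hρ Y u)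
        refine e1.trans ?_
        have hq0 : (0 : ℝ) ≤ q := Nat.cast_nonneg q
        have e2 : 2 * (2 * (q : ℝ)) * TI1_R v δ s h d U ≤ 2 * (2 * (q : ℝ)) * (5 * Real.log N) :=
          mul_le_mul_of_nonneg_left hRU (by positivity)
        linarith
      · exact TI1_sumint (TI1_R v δ s h d) Y U hY hYU _
          (fun x y hx hxy => TI1_R_mono v δ s h d hδ hd hx hxy) (fun x hx => TI1_R_nonneg v δ s h d hx) hRU
      · apply MonotoneOn.intervalIntegrable
        intro x hx y _ hxy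
        rw [Set.uIcc_of_le (by exact_mod_cast hYU)] at hx
        exact TI1_R_mono v δ s h d hδ hd (hY1.trans hx.1) hxy
    obtain ⟨a1, a2, a3⟩ := hone (1 / N) 1 (by positivity)
    obtain ⟨b1, b2, b3⟩ := hone (1 / N) 0 (by positivity)
    obtain ⟨c1, c2, c3⟩ := hone (1 / Real.log N ^ B) 1 (by positivity)
    obtain ⟨d1, d2, d3⟩ := hone (1 / Real.log N ^ B) 0 (by positivity)
    have hdec := fun u : ℝ => TI1_dec h1 B N v h d u hN0 hL0
    obtain ⟨κ, hκ⟩ : ∃ κ : ℝ, κ = Real.log N ^ B / N := ⟨_, rfl⟩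
    rw [← hκ] at hκ0 hκ1 hdec
    -- the part with the centred character
    have p1 : ‖∑ n ∈ Ioc Y U, (χ n - ρ) * ((TI1_G B N v h d n : ℝ) : ℂ)‖ ≤ 80 * q * Real.log N := by
      have e1 : ∑ n ∈ Ioc Y U, (χ n - ρ) * ((TI1_G B N v h d n : ℝ) : ℂ) =
          ∑ n ∈ Ioc Y U, (χ n - ρ) * ((TI1_R v (1 / N) 1 h d n : ℝ) : ℂ) -
          ∑ n ∈ Ioc Y U, (χ n - ρ) * ((TI1_R v (1 / N) 0 h d n : ℝ) : ℂ) -
          (κ : ℂ) * (∑ n ∈ Ioc Y U, (χ n - ρ) * ((TI1_R v (1 / Real.log N ^ B) 1 h d n : ℝ) : ℂ) -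
          ∑ n ∈ Ioc Y U, (χ n - ρ) * ((TI1_R v (1 / Real.log N ^ B) 0 h d n : ℝ) : ℂ)) := by
        rw [← sum_sub_distrib, ← sum_sub_distrib, mul_sum, ← sum_sub_distrib]
        refine sum_congr rfl fun n _ => ?_
        rw [hdec n]
        push_cast
        ring
      rw [e1]
      refine (norm_sub_le _ _).trans ?_
      refine (add_le_add (norm_sub_le _ _) le_rfl).trans ?_
      rw [norm_mul, Complex.norm_real, Real.norm_eq_abs, abs_of_nonneg hκ0]
      have e2 := norm_sub_le (∑ n ∈ Ioc Y U, (χ n - ρ) * ((TI1_R v (1 / Real.log N ^ B) 1 h d n : ℝ) : ℂ))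
        (∑ n ∈ Ioc Y U, (χ n - ρ) * ((TI1_R v (1 / Real.log N ^ B) 0 h d n : ℝ) : ℂ))
      have e3 : κ * ‖∑ n ∈ Ioc Y U, (χ n - ρ) * ((TI1_R v (1 / Real.log N ^ B) 1 h d n : ℝ) : ℂ) -
        ∑ n ∈ Ioc Y U, (χ n - ρ) * ((TI1_R v (1 / Real.log N ^ B) 0 h d n : ℝ) : ℂ)‖ ≤
          1 * (40 * q * Real.log N) :=
        mul_le_mul hκ1 (e2.trans (by linarith)) (norm_nonneg _) zero_le_one
      linarith
    -- the part without character
    have p2 : |∑ n ∈ Ioc Y U, TI1_G B N v h d n - ∫ x in (Y : ℝ)..U, TI1_G B N v h d x| ≤ 20 * Real.log N := by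
      have e1 : ∑ n ∈ Ioc Y U, TI1_G B N v h d n =
          ∑ n ∈ Ioc Y U, TI1_R v (1 / N) 1 h d n - ∑ n ∈ Ioc Y U, TI1_R v (1 / N) 0 h d n -
          κ * (∑ n ∈ Ioc Y U, TI1_R v (1 / Real.log N ^ B) 1 h d n -
          ∑ n ∈ Ioc Y U, TI1_R v (1 / Real.log N ^ B) 0 h d n) := by
        rw [← sum_sub_distrib, ← sum_sub_distrib, mul_sum, ← sum_sub_distrib]
        exact sum_congr rfl fun n _ => hdec n
      have e2 : ∫ x in (Y : ℝ)..U, TI1_G B N v h d x =
          (∫ x in (Y : ℝ)..U, TI1_R v (1 / N) 1 h d x) - (∫ x in (Y : ℝ)..U, TI1_R v (1 / N) 0 h d x) -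
          κ * ((∫ x in (Y : ℝ)..U, TI1_R v (1 / Real.log N ^ B) 1 h d x) -
          ∫ x in (Y : ℝ)..U, TI1_R v (1 / Real.log N ^ B) 0 h d x) := by
        rw [← intervalIntegral.integral_sub a3 b3, ← intervalIntegral.integral_sub c3 d3,
          ← intervalIntegral.integral_const_mul, ← intervalIntegral.integral_sub (a3.sub b3)
            ((c3.sub d3).const_mul κ)]
        exact intervalIntegral.integral_congr fun x _ => hdec x
      rw [e1, e2]
      rw [abs_le] at a2 b2 c2 d2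
      have f1 : |(∑ n ∈ Ioc Y U, TI1_R v (1 / Real.log N ^ B) 1 h d n -
          ∑ n ∈ Ioc Y U, TI1_R v (1 / Real.log N ^ B) 0 h d n) -
          ((∫ x in (Y : ℝ)..U, TI1_R v (1 / Real.log N ^ B) 1 h d x) -
          ∫ x in (Y : ℝ)..U, TI1_R v (1 / Real.log N ^ B) 0 h d x)| ≤ 10 * Real.log N := by
        rw [abs_le]
        constructor <;> linarith [c2.1, c2.2, d2.1, d2.2]
      have f2 : |κ * ((∑ n ∈ Ioc Y U, TI1_R v (1 / Real.log N ^ B) 1 h d n -
          ∑ n ∈ Ioc Y U, TI1_R v (1 / Real.log N ^ B) 0 h d n) -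
          ((∫ x in (Y : ℝ)..U, TI1_R v (1 / Real.log N ^ B) 1 h d x) -
          ∫ x in (Y : ℝ)..U, TI1_R v (1 / Real.log N ^ B) 0 h d x))| ≤ 10 * Real.log N := by
        rw [abs_mul, abs_of_nonneg hκ0]
        calc κ * _ ≤ 1 * (10 * Real.log N) := mul_le_mul hκ1 f1 (abs_nonneg _) zero_le_one
          _ = _ := one_mul _
      rw [abs_le] at f2 ⊢
      constructor <;> linarith [a2.1, a2.2, b2.1, b2.2, f2.1, f2.2]
    -- the integral
    have hlogd : Real.log d ≤ 3 * Real.log N + 4 := by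
      have e1 : (d : ℝ) ≤ 2 ^ 5 * (N : ℝ) ^ 3 := by
        have : (d : ℝ) ≤ 32 * (N : ℝ) ^ 3 := by exact_mod_cast hd32
        linarith
      have e2 := Real.log_le_log hd0 e1
      rw [Real.log_mul (by positivity) (by positivity), Real.log_pow, Real.log_pow] at e2
      push_cast at e2
      linarith
    have hlogd0 : 0 ≤ Real.log d := Real.log_natCast_nonneg d
    have hvd : |v - Real.log d| ≤ 4 * Real.log N := by
      rw [abs_le]
      constructor <;> linarith [hv.1, hv.2]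
    have p3 : |∫ x in (Y : ℝ)..U, TI1_G B N v h d x| ≤ 3 * Real.exp v * (1 + |v - Real.log d|) *
        (2 / (N * Real.log N ^ B)) / d :=
      TI1_int (g0 B N v) v (1 / Real.log N ^ B) (3 * Real.exp v * (1 + |v - Real.log d|))
        (2 / (N * Real.log N ^ B)) h d Y U hd hY hYU hδ2 hgc hgi hgz hg0 hgi1 hgE hlogdY hlogdU
        (by positivity) (fun w hw => TI1_phi hh v (Real.log d) w hw)
    have p4 : 3 * Real.exp v * (1 + |v - Real.log d|) * (2 / (N * Real.log N ^ B)) / d ≤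
        90 * Real.log N * ((N : ℝ) ^ 2 / (d * Real.log N ^ B)) := by
      have e1 : 3 * Real.exp v * (1 + |v - Real.log d|) ≤ 9 * (N : ℝ) ^ 3 * (5 * Real.log N) :=
        mul_le_mul (by linarith) (by linarith) (by positivity) (by positivity)
      have e2 : 3 * Real.exp v * (1 + |v - Real.log d|) * (2 / (N * Real.log N ^ B)) / d ≤
          9 * (N : ℝ) ^ 3 * (5 * Real.log N) * (2 / (N * Real.log N ^ B)) / d := by
        rw [div_le_div_iff_of_pos_right hd0]
        exact mul_le_mul_of_nonneg_right e1 (by positivity)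
      refine e2.trans (le_of_eq ?_)
      field_simp
      ring
    have p5 : |∑ n ∈ Ioc Y U, TI1_G B N v h d n| ≤ 20 * Real.log N +
        90 * Real.log N * ((N : ℝ) ^ 2 / (d * Real.log N ^ B)) := by
      have e1 : ∑ n ∈ Ioc Y U, TI1_G B N v h d n =
          (∑ n ∈ Ioc Y U, TI1_G B N v h d n - ∫ x in (Y : ℝ)..U, TI1_G B N v h d x) +
          ∫ x in (Y : ℝ)..U, TI1_G B N v h d x := by ring
      rw [e1]
      exact (abs_add_le _ _).trans (add_le_add p2 (p3.trans p4))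
    have p6 : ∑ n ∈ Ioc Y U, χ n * ((TI1_G B N v h d n : ℝ) : ℂ) =
        ∑ n ∈ Ioc Y U, (χ n - ρ) * ((TI1_G B N v h d n : ℝ) : ℂ) +
          ρ * ((∑ n ∈ Ioc Y U, TI1_G B N v h d n : ℝ) : ℂ) := by
      push_cast
      rw [mul_sum, ← sum_add_distrib]
      exact sum_congr rfl fun n _ => by ring
    rw [p6]
    refine (norm_add_le _ _).trans ?_
    rw [norm_mul, Complex.norm_real, Real.norm_eq_abs]
    have p7 : ‖ρ‖ * |∑ n ∈ Ioc Y U, TI1_G B N v h d n| ≤ 1 * (20 * Real.log N +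
        90 * Real.log N * ((N : ℝ) ^ 2 / (d * Real.log N ^ B))) :=
      mul_le_mul hρ1 p5 (abs_nonneg _) zero_le_one
    have hq1 : (1 : ℝ) ≤ q := by exact_mod_cast hq
    have p8 : 0 ≤ (N : ℝ) ^ 2 / (d * Real.log N ^ B) := by positivity
    nlinarith

end Pool.Agent.SK
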